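import Mathlib
import Pool.Agent.Y91.G.Stm

/-!
# Two dual summands: self-dual exterior powers
-/

set_option linter.unusedSectionVars false

namespace Pool.Agent.Y185.G

open Module LinearMap Pool.Agent.W548.Odd Pool.Agent.Y91.JP Pool.Agent.Y91.P Pool.Agent.Y91.G

variable {K : Type*} [Field K] [CharZero K] {V : Type*} [AddCommGroup V] [Module K V]
  [FiniteDimensional K V]

/-- The submodule generated by a vector. -/
theorem exists_M {n : ℕ} {x y : ℕ → End K V} {P : End K V} {l l' : K} (F : Fr n x y P l l')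
    {a : ℕ} (ha : a ≤ n) (hE : ∀ j, a < j → j ≤ n → rk (EE' x y P j) = 0) {w : V}
    (hw : EE' x y P a w = w) : ∃ M : Submodule K V, w ∈ M ∧ (∀ v ∈ M, P v = v) ∧
      (∀ v ∈ M, EE' x y P a v ∈ Submodule.span K {w}) ∧
      ∀ v ∈ M, ∀ k < n, ∀ m < n, x k (y m v) ∈ M := by
  have hPE : P * EE' x y P a = EE' x y P a := by
    have key : ∀ j ≤ n, P * EE' x y P j = EE' x y P j := by
      intro j hj
      induction j with
      | zero => exact F.PP
      | succ j ih =>
        change P * (EE' x y P j * (x j * y j)) = _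
        rw [← mul_assoc, ih (by omega)]
        rfl
    exact key a ha
  have hpE : ∀ j < n, x j * y j * EE' x y P a = EE' x y P a * (x j * y j) := fun j hj =>
    (F.E_p ha hj).symm
  let C : Set (Submodule K V) := {M | w ∈ M ∧ ∀ i, a ≤ i → i < n → ∀ j < a, ∀ v ∈ M,
    x i (y j v) ∈ M}
  have hCM : ∀ M ∈ C, sInf C ≤ M := fun M hM => sInf_le hM
  have hwM : w ∈ sInf C := by
    rw [Submodule.mem_sInf]
    exact fun M hM => hM.1
  have hcl : ∀ i, a ≤ i → i < n → ∀ j < a, ∀ v ∈ sInf C, x i (y j v) ∈ sInf C := by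
    intro i hi hin j hj v hv
    rw [Submodule.mem_sInf]
    intro M hM
    exact hM.2 i hi hin j hj v (hCM M hM hv)
  have hwk : ∀ k < n, ∀ m < n, x k (y m w) ∈ sInf C := by
    intro k hk m hm
    by_cases hma : a ≤ m
    · have e1 : x k * y m * EE' x y P a = 0 := by
        calc x k * y m * EE' x y P a = x k * (y m * x m * y m) * EE' x y P a := by rw [F.yxy hm]
        _ = x k * y m * (x m * y m * EE' x y P a) := by noncomm_ring
        _ = 0 := by rw [hpE m hm, F.E_zero hE hma hm, mul_zero]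
      have e2 : x k (y m w) = 0 := by
        rw [← hw]
        exact LinearMap.congr_fun e1 w
      rw [e2]
      exact Submodule.zero_mem _
    · by_cases hka : a ≤ k
      · exact hcl k hka hk m (by omega) w hwM
      · by_cases hkm : k = m
        · have e1 : x k * y k * EE' x y P a = EE' x y P a := by
            rw [hpE k hk, F.E_abs ha (by omega)]
          have e2 : x k (y k w) = w := by
            conv_lhs => rw [← hw]
            conv_rhs => rw [← hw]
            exact LinearMap.congr_fun e1 w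
          rw [← hkm, e2]
          exact hwM
        · have e1 : x k * y m * EE' x y P a = 0 := by
            calc x k * y m * EE' x y P a = x k * y m * (x k * y k * EE' x y P a) := by
                  rw [hpE k hk, F.E_abs ha (by omega)]
            _ = (x k * y m * x k) * (y k * EE' x y P a) := by noncomm_ring
            _ = 0 := by rw [F.xyx0 hk hm hkm, zero_mul]
          have e2 : x k (y m w) = 0 := by
            rw [← hw]
            exact LinearMap.congr_fun e1 w
          rw [e2]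
          exact Submodule.zero_mem _
  -- the positive part
  have hPM : ∀ v ∈ sInf C, P v = v := by
    have h1 : LinearMap.ker (P - 1) ∈ C := by
      refine ⟨?_, fun i hi hin j hj v _ => ?_⟩
      · rw [LinearMap.mem_ker, LinearMap.sub_apply, sub_eq_zero]
        conv_lhs => rw [← hw]
        conv_rhs => rw [← hw]
        exact LinearMap.congr_fun hPE w
      · rw [LinearMap.mem_ker, LinearMap.sub_apply, sub_eq_zero]
        exact LinearMap.congr_fun (F.Px i hin) (y j v)
    intro v hv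
    have h2 := hCM _ h1 hv
    rw [LinearMap.mem_ker, LinearMap.sub_apply, sub_eq_zero] at h2
    exact h2
  have hEM : ∀ v ∈ sInf C, EE' x y P a v ∈ Submodule.span K {w} := by
    have h1 : (Submodule.span K {w}).comap (EE' x y P a) ∈ C := by
      refine ⟨?_, fun i hi hin j hj v _ => ?_⟩
      · rw [Submodule.mem_comap, hw]
        exact Submodule.mem_span_singleton_self w
      · have e1 : EE' x y P a * (x i * y j) = 0 := by
          calc EE' x y P a * (x i * y j) = EE' x y P a * (x j * y j) * (x i * y j) := by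
                rw [F.E_abs ha hj]
          _ = EE' x y P a * x j * (y j * x i * y j) := by noncomm_ring
          _ = 0 := by rw [F.yxy0 (by omega) hin (by omega), mul_zero]
        have e2 : EE' x y P a (x i (y j v)) = 0 := LinearMap.congr_fun e1 v
        rw [Submodule.mem_comap, e2]
        exact Submodule.zero_mem _
    exact fun v hv => hCM _ h1 hv
  have hst : ∀ v ∈ sInf C, ∀ k < n, ∀ m < n, x k (y m v) ∈ sInf C := by
    let M' : Submodule K V :=
      { carrier := {v | v ∈ sInf C ∧ ∀ k < n, ∀ m < n, x k (y m v) ∈ sInf C}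
        zero_mem' := ⟨Submodule.zero_mem _, fun k _ m _ => by
          rw [map_zero, map_zero]
          exact Submodule.zero_mem _⟩
        add_mem' := fun {u v} hu hv => ⟨Submodule.add_mem _ hu.1 hv.1, fun k hk m hm => by
          rw [map_add, map_add]
          exact Submodule.add_mem _ (hu.2 k hk m hm) (hv.2 k hk m hm)⟩
        smul_mem' := fun t v hv => ⟨Submodule.smul_mem _ t hv.1, fun k hk m hm => by
          rw [map_smul, map_smul]
          exact Submodule.smul_mem _ t (hv.2 k hk m hm)⟩ }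
    have h1 : M' ∈ C := by
      refine ⟨⟨hwM, hwk⟩, ?_⟩
      rintro i hi hin j hj v ⟨hv, hv'⟩
      refine ⟨hcl i hi hin j hj v hv, fun k hk m hm => ?_⟩
      have h2 := LinearMap.congr_fun (F.br hk hm hin (show j < n by omega)) v
      have h3 : (if i = m then x k * y j else 0) v ∈ sInf C := by
        split_ifs with h4
        · exact hv' k hk j (by omega)
        · exact Submodule.zero_mem _
      have h4 : (if k = j then x i * y m else 0) v ∈ sInf C := by
        split_ifs with h4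
        · exact hv' i hin m hm
        · exact Submodule.zero_mem _
      have h5 : (x i * y j * (x k * y m)) v ∈ sInf C :=
        hcl i hi hin j hj _ (hv' k hk m hm)
      have h6 : x k (y m (x i (y j v))) = (x k * y m * (x i * y j)) v := rfl
      rw [h6, h2]
      exact Submodule.sub_mem _ (Submodule.add_mem _ h5 h3) h4
    exact fun v hv => (hCM _ h1 hv).2
  exact ⟨sInf C, hwM, hPM, hEM, hst⟩

theorem choose_half {n a : ℕ} (h1 : 1 ≤ a) (h2 : a ≤ n) (h : n.choose a = n.choose (a - 1)) :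
    n + 1 = 2 * a := by
  obtain ⟨k, rfl⟩ : ∃ k, a = k + 1 := ⟨a - 1, by omega⟩
  have e1 := Nat.choose_succ_right_eq n k
  rw [Nat.add_sub_cancel] at h
  rw [h] at e1
  have e2 : 0 < n.choose k := Nat.choose_pos (by omega)
  have e3 : k + 1 = n - k := Nat.eq_of_mul_eq_mul_left e2 e1
  omega

/-- The frame with equal multiplicities. -/
theorem frame2 [IsAlgClosed K] {n : ℕ} (hpos : 0 < n) {X Y : ℕ → End K V} {E : End K V}
    (hE2 : E * E = 1) (hEX : ∀ i, E * X i = X i) (hXE : ∀ i, X i * E = -X i)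
    (hEY : ∀ i, E * Y i = -Y i) (hYE : ∀ i, Y i * E = Y i)
    (hR1 : ∀ i < n, ∀ j < n, ∀ k < n, X i * Y j * X k + X k * Y j * X i =
      (if i = j then X k else 0) + (if k = j then X i else 0))
    (hR2 : ∀ i < n, ∀ j < n, ∀ k < n, Y i * X j * Y k + Y k * X j * Y i =
      (if i = j then Y k else 0) + (if k = j then Y i else 0))
    (hirr' : ∀ W : Submodule K V, (∀ w ∈ W, E w = w) →
      (∀ i < n, ∀ j < n, ∀ w ∈ W, X i (Y j w) ∈ W) → W = ⊥ ∨ ∀ v, E v = v → v ∈ W)
    (hirrn' : ∀ W : Submodule K V, (∀ w ∈ W, E w = -w) →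
      (∀ i < n, ∀ j < n, ∀ w ∈ W, Y i (X j w) ∈ W) → W = ⊥ ∨ ∀ v, E v = -v → v ∈ W)
    {v1 v2 : V} (hv1 : v1 ≠ 0) (hEv1 : E v1 = v1) (hv2 : v2 ≠ 0) (hEv2 : E v2 = -v2)
    (hX0 : X 0 ≠ 0) (hrr : rk ((2 : K)⁻¹ • (1 + E)) = rk ((2 : K)⁻¹ • (1 - E))) :
    ∃ a : ℕ, a ≤ n ∧ n + 1 = 2 * a ∧ (2 : K)⁻¹ • (1 + E) ≠ 0 ∧
      Fr n X Y ((2 : K)⁻¹ • (1 + E)) (a : K) (a : K) := by
  obtain ⟨a, ha1, han, hrP, hrP', htrE⟩ := frame_main hpos hE2 hEX hXE hEY hYE hR1 hR2 hirr'
    hirrn' hv1 hEv1 hv2 hEv2 hX0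
  have hab : n.choose a = n.choose (a - 1) := by rw [← hrP, ← hrP', hrr]
  have hn2 := choose_half ha1 han hab
  have hcpos : ((n.choose a : ℕ) : K) ≠ 0 := by
    exact_mod_cast (Nat.choose_pos han).ne'
  -- the Casimir scalars
  have hEn2 : -E * -E = 1 := by rw [neg_mul_neg, hE2]
  have hirrn2 : ∀ W : Submodule K V, (∀ w ∈ W, (-E) w = w) →
      (∀ i < n, ∀ j < n, ∀ w ∈ W, Y i (X j w) ∈ W) → W = ⊥ ∨ ∀ v, (-E) v = v → v ∈ W := by
    intro W hW1 hW
    rcases hirrn' W (fun w hw => by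
      have h1 := hW1 w hw
      rw [LinearMap.neg_apply] at h1
      rw [← h1, neg_neg, h1]) hW with h1 | h1
    · exact Or.inl h1
    · refine Or.inr fun v hv => h1 v ?_
      rw [LinearMap.neg_apply] at hv
      rw [← neg_neg (E v), hv]
  obtain ⟨l, hl⟩ := cas_scalar hE2 (x := X) (y := Y) (fun i _ => hEX i) (fun i _ => hYE i) hR1 hR2
    hirr' hv1 hEv1
  obtain ⟨l', hl'⟩ := cas_scalar hEn2 (x := Y) (y := X)
    (fun i _ => by rw [neg_mul, hEY, neg_neg]) (fun i _ => by rw [mul_neg, hXE, neg_neg]) hR2 hR1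
    hirrn2 hv2 (by rw [LinearMap.neg_apply, hEv2, neg_neg])
  obtain ⟨P, hP⟩ : ∃ P : End K V, P = (2 : K)⁻¹ • (1 + E) := ⟨_, rfl⟩
  have hP2 : P + P = 1 + E := by
    rw [← two_smul K, hP, smul_smul, mul_inv_cancel₀ two_ne_zero, one_smul]
  have h1P : 1 - P = (2 : K)⁻¹ • (1 + -E) := by
    have e1 : (1 - P) + (1 - P) = 1 + -E := by
      calc (1 - P) + (1 - P) = 1 + 1 - (P + P) := by abel
      _ = 1 + -E := by rw [hP2]; abel
    rw [← e1, ← two_smul K, smul_smul, inv_mul_cancel₀ two_ne_zero, one_smul]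
  have hPP : P * P = P := by
    have e1 : (1 + E) * (1 + E) = (2 : K) • (1 + E) := by
      rw [mul_add, add_mul, add_mul, one_mul, one_mul, mul_one, hE2, two_smul]
      abel
    rw [hP, smul_mul_smul_comm, e1, smul_smul]
    congr 1
    rw [mul_assoc, inv_mul_cancel₀ two_ne_zero, mul_one]
  have h1PP : (1 - P) * (1 - P) = 1 - P := by
    rw [mul_sub, mul_one, sub_mul, one_mul, hPP, sub_self, sub_zero]
  have hla : l = a := by
    have e1 := htrE
    rw [hl, ← hP, map_smul, trace_idem hPP, hP, hrP, smul_eq_mul] at e1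
    exact mul_right_cancel₀ hcpos e1
  have hla' : l' = a := by
    have e1 : trace K V (∑ i ∈ Finset.range n, Y i * X i) =
        a * n.choose a := by
      rw [← htrE, map_sum, map_sum]
      exact Finset.sum_congr rfl fun i _ => LinearMap.trace_mul_comm K _ _
    have e2 : (2 : K)⁻¹ • (1 + -E) = (2 : K)⁻¹ • (1 - E) := by rw [sub_eq_add_neg]
    rw [hl', ← h1P, map_smul, trace_idem h1PP, h1P, e2, hrP', ← hab, smul_eq_mul] at e1
    exact mul_right_cancel₀ hcpos e1
  have hPne : P ≠ 0 := by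
    intro h0
    rw [← hP, h0, rk_zero] at hrP
    exact (Nat.choose_pos han).ne hrP
  refine ⟨a, han, hn2, by rw [← hP]; exact hPne, ?_⟩
  have FF : Fr n X Y P l l' := by
    refine ⟨hR1, hR2, fun i _ => ?_, fun i _ => ?_, fun i _ => ?_, fun i _ => ?_, hPP, ?_, ?_⟩
    · rw [hP, smul_mul_assoc, add_mul, one_mul, hEX, ← two_smul K, smul_smul,
        inv_mul_cancel₀ two_ne_zero, one_smul]
    · rw [hP, mul_smul_comm, mul_add, mul_one, hYE, ← two_smul K, smul_smul,
        inv_mul_cancel₀ two_ne_zero, one_smul]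
    · rw [hP, mul_smul_comm, mul_add, mul_one, hXE, add_neg_cancel, smul_zero]
    · rw [hP, smul_mul_assoc, add_mul, one_mul, hEY, add_neg_cancel, smul_zero]
    · rw [hl, hP]
    · rw [hl', h1P]
  rw [hla, hla'] at FF
  rw [← hP]
  exact FF

variable {G I : Submodule K (End K V)} {st : End K V →ₗ[K] End K V} (h : Setup G st)
  {ε : End K V} (b : Blk G st ε)

section exc

variable {D c d p q : End K V} (F : MP G st D c d p q)

include h F in
/-- Dual bases. -/
theorem exists_fam [IsAlgClosed K] (hD : D ∈ G) (hD2 : D * D = 1)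
    (hcon : ∀ x ∈ Kp G D, x - p * x - x * q + p * x * q = 0) :
    ∃ (n : ℕ) (x y : ℕ → End K V), 0 < n ∧ (∀ i, x i ∈ Kp G D) ∧ (∀ i, y i ∈ Kp G (-D)) ∧
    (∀ i < n, ∀ j < n, ∀ k < n, x i * y j * x k + x k * y j * x i =
      (if i = j then x k else 0) + (if k = j then x i else 0)) ∧
    (∀ i < n, ∀ j < n, ∀ k < n, y i * x j * y k + y k * x j * y i =
      (if i = j then y k else 0) + (if k = j then y i else 0)) ∧
    (∀ z ∈ Kp G D, z ∈ Submodule.span K (Set.range fun i : Fin n => x i)) ∧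
    (∀ z ∈ Kp G (-D), z ∈ Submodule.span K (Set.range fun i : Fin n => y i)) ∧ x 0 ≠ 0 := by
  classical
  obtain ⟨m, hmd⟩ : ∃ m, m = rk c := ⟨_, rfl⟩
  have hm : m ≠ 0 := by rw [hmd]; exact (rk_pos_of_ne F.ne).ne'
  obtain ⟨n, hn⟩ : ∃ n, n = finrank K (Kp G D) := ⟨_, rfl⟩
  have hm' : (m : K) ≠ 0 := by exact_mod_cast hm
  have hDn : -D ∈ G := G.neg_mem hD
  have hDn2 : -D * -D = 1 := by rw [neg_mul_neg, hD2]
  let bs : Basis (Fin n) K (Kp G D) := (Module.finBasis K (Kp G D)).reindex (finCongr hn.symm)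
  choose b' hb' hbb' using fun i => exists_dual h hD hD2 (bs.coord i)
  have hpos : 0 < n := by
    rw [hn]
    refine Module.finrank_pos_iff_exists_ne_zero.2 ⟨⟨c, F.cm⟩, fun h0 => F.ne ?_⟩
    exact congrArg Subtype.val h0
  let x : ℕ → End K V := fun i => if hi : i < n then (bs ⟨i, hi⟩ : End K V) else 0
  let y : ℕ → End K V := fun i => if hi : i < n then (m : K) • b' ⟨i, hi⟩ else 0
  have hx : ∀ i, x i ∈ Kp G D := by
    intro i
    change (if hi : i < n then (bs ⟨i, hi⟩ : End K V) else 0) ∈ _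
    split_ifs with hi
    · exact (bs ⟨i, hi⟩).2
    · exact Submodule.zero_mem _
  have hy : ∀ i, y i ∈ Kp G (-D) := by
    intro i
    change (if hi : i < n then (m : K) • b' ⟨i, hi⟩ else 0) ∈ _
    split_ifs with hi
    · exact Submodule.smul_mem _ _ (hb' _)
    · exact Submodule.zero_mem _
  have hxy : ∀ i < n, ∀ j < n, (m : K)⁻¹ * trace K V (x i * y j) = if i = j then 1 else 0 := by
    intro i hi j hj
    have e1 : x i = (bs ⟨i, hi⟩ : End K V) := dif_pos hi
    have e2 : y j = (m : K) • b' ⟨j, hj⟩ := dif_pos hj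
    rw [e1, e2, mul_smul_comm, map_smul, smul_eq_mul, ← mul_assoc, inv_mul_cancel₀ hm', one_mul,
      hbb', Basis.coord_apply, Basis.repr_self, Finsupp.single_apply]
    congr 1
    rw [eq_iff_iff]
    exact Fin.mk.injEq .. ▸ Iff.rfl
  have hyx : ∀ i < n, ∀ j < n, (m : K)⁻¹ * trace K V (y i * x j) = if i = j then 1 else 0 := by
    intro i hi j hj
    rw [LinearMap.trace_mul_comm, hxy j hj i hi]
    simp only [eq_comm]
  have hxs : ∀ z ∈ Kp G D, ∀ w ∈ Kp G (-D), z * w * z = ((m : K)⁻¹ * trace K V (z * w)) • z := by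
    intro z hz w hw
    rw [hmd]
    exact prim_all h F hD hD2 hcon hz hw.1
  have hys : ∀ z ∈ Kp G (-D), ∀ w ∈ Kp G D, z * w * z = ((m : K)⁻¹ * trace K V (z * w)) • z := by
    intro z hz w hw
    rw [hmd]
    exact prim_all' h F hD hD2 hcon hz hw
  have hr1 : ∀ i < n, ∀ j < n, ∀ k < n, x i * y j * x k + x k * y j * x i =
      (if i = j then x k else 0) + (if k = j then x i else 0) := by
    intro i hi j hj k hk
    rw [prim_polar (hxs _ (hx i) _ (hy j)) (hxs _ (hx k) _ (hy j))
      (hxs _ (Submodule.add_mem _ (hx i) (hx k)) _ (hy j)), hxy i hi j hj, hxy k hk j hj]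
    simp only [ite_smul, one_smul, zero_smul]
  have hr2 : ∀ i < n, ∀ j < n, ∀ k < n, y i * x j * y k + y k * x j * y i =
      (if i = j then y k else 0) + (if k = j then y i else 0) := by
    intro i hi j hj k hk
    rw [prim_polar (hys _ (hy i) _ (hx j)) (hys _ (hy k) _ (hx j))
      (hys _ (Submodule.add_mem _ (hy i) (hy k)) _ (hx j)), hyx i hi j hj, hyx k hk j hj]
    simp only [ite_smul, one_smul, zero_smul]
  have hspan : ∀ z ∈ Kp G D, z ∈ Submodule.span K (Set.range fun i : Fin n => x i) := by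
    intro z hz
    have e1 : (⟨z, hz⟩ : Kp G D) = ∑ i, bs.repr ⟨z, hz⟩ i • bs i := (bs.sum_repr _).symm
    have e2 : z = ∑ i, bs.repr ⟨z, hz⟩ i • (bs i : End K V) := by
      have e3 := congrArg Subtype.val e1
      rw [Submodule.coe_sum] at e3
      exact e3
    rw [e2]
    refine Submodule.sum_mem _ fun i _ => Submodule.smul_mem _ _ (Submodule.subset_span ⟨i, ?_⟩)
    exact dif_pos i.2
  have hspan' : ∀ z ∈ Kp G (-D), z ∈ Submodule.span K (Set.range fun i : Fin n => y i) := by
    intro z hz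
    have e1 : z = ∑ i : Fin n, ((m : K)⁻¹ * trace K V (x i * z)) • y i := by
      rw [← sub_eq_zero]
      refine kn_nondeg h hD hD2 (Submodule.sub_mem _ hz (Submodule.sum_mem _ fun i _ =>
        Submodule.smul_mem _ _ (hy i))) fun w hw => ?_
      have hw' := hspan w hw
      clear hw
      induction hw' using Submodule.span_induction with
      | mem w hw =>
        obtain ⟨j, rfl⟩ := hw
        dsimp only
        rw [mul_sub, map_sub, Finset.mul_sum, map_sum, Finset.sum_eq_single j]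
        · rw [mul_smul_comm, map_smul, smul_eq_mul]
          have e2 := hxy j j.2 j j.2
          rw [if_pos rfl] at e2
          linear_combination -(trace K V (x j * z)) * e2
        · intro i _ hij
          rw [mul_smul_comm, map_smul, smul_eq_mul]
          have e2 := hxy j j.2 i i.2
          rw [if_neg (fun e => hij (Fin.ext e.symm))] at e2
          have e3 : trace K V (x j * y i) = 0 :=
            (mul_eq_zero.1 e2).resolve_left (inv_ne_zero hm')
          rw [e3, mul_zero]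
        · intro hj
          exact absurd (Finset.mem_univ _) hj
      | zero => rw [zero_mul, map_zero]
      | add w w' _ _ h1 h2 => rw [add_mul, map_add, h1, h2, add_zero]
      | smul c w _ h1 => rw [smul_mul_assoc, map_smul, h1, smul_zero]
    rw [e1]
    exact Submodule.sum_mem _ fun i _ => Submodule.smul_mem _ _ (Submodule.subset_span ⟨i, rfl⟩)
  refine ⟨n, x, y, hpos, hx, hy, hr1, hr2, hspan, hspan', ?_⟩
  have e1 : x 0 = (bs ⟨0, hpos⟩ : End K V) := dif_pos hpos
  rw [e1]
  intro h0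
  exact bs.ne_zero ⟨0, hpos⟩ (Subtype.ext h0)

include h b F in
/-- The frame on a summand. -/
theorem blk_fr [IsAlgClosed K] (hD : D ∈ G) (hD2 : D * D = 1)
    (hirr : IrrE G ε D) (hirrn : IrrE G ε (-D)) {n : ℕ} {x y : ℕ → End K V} (hpos : 0 < n)
    (hx : ∀ i, x i ∈ Kp G D) (hy : ∀ i, y i ∈ Kp G (-D))
    (hr1 : ∀ i < n, ∀ j < n, ∀ k < n, x i * y j * x k + x k * y j * x i =
      (if i = j then x k else 0) + (if k = j then x i else 0))
    (hr2 : ∀ i < n, ∀ j < n, ∀ k < n, y i * x j * y k + y k * x j * y i =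
      (if i = j then y k else 0) + (if k = j then y i else 0))
    (hspan : ∀ z ∈ Kp G D, z ∈ Submodule.span K (Set.range fun i : Fin n => x i))
    (hspan' : ∀ z ∈ Kp G (-D), z ∈ Submodule.span K (Set.range fun i : Fin n => y i))
    (hx00 : x 0 ≠ 0) (hpq : finrank K (Pos D ε) = finrank K (Pos (-D) ε)) :
    ∃ a : ℕ, a ≤ n ∧ n + 1 = 2 * a ∧ (2 : K)⁻¹ • (1 + RE ε D) ≠ 0 ∧
      Fr n (fun i => RE ε (x i)) (fun i => RE ε (y i)) ((2 : K)⁻¹ • (1 + RE ε D)) (a : K)
        (a : K) := by
  have hDn2 : -D * -D = 1 := by rw [neg_mul_neg, hD2]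
  -- restriction to the first summand
  obtain ⟨X, hX⟩ : ∃ X : ℕ → End K (LinearMap.range ε), X = fun i => RE ε (x i) := ⟨_, rfl⟩
  obtain ⟨Y, hY⟩ : ∃ Y : ℕ → End K (LinearMap.range ε), Y = fun i => RE ε (y i) := ⟨_, rfl⟩
  obtain ⟨E, hE⟩ : ∃ E : End K (LinearMap.range ε), E = RE ε D := ⟨_, rfl⟩
  have hXi : ∀ i, X i = RE ε (x i) := fun i => by rw [hX]
  have hYi : ∀ i, Y i = RE ε (y i) := fun i => by rw [hY]
  have cx : ∀ i, ε * x i = x i * ε := fun i => b.comm _ (hx i).1
  have cy : ∀ i, ε * y i = y i * ε := fun i => b.comm _ (hy i).1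
  have cD : ε * D = D * ε := b.comm D hD
  have cmul : ∀ {u v : End K V}, ε * u = u * ε → ε * v = v * ε → ε * (u * v) = u * v * ε := by
    intro u v hu hv
    rw [← mul_assoc, hu, mul_assoc, hv, mul_assoc]
  have hE2 : E * E = 1 := by rw [hE, ← RE_mul b.idem _ cD, hD2, RE_one b.idem]
  have hEX : ∀ i, E * X i = X i := fun i => by
    rw [hE, hXi, ← RE_mul b.idem _ cD, (hx i).2.1]
  have hXE : ∀ i, X i * E = -X i := fun i => by
    rw [hE, hXi, ← RE_mul b.idem _ (cx i), (hx i).2.2, map_neg]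
  have hEY : ∀ i, E * Y i = -Y i := fun i => by
    rw [hE, hYi, ← RE_mul b.idem _ cD, (mem_Kn.1 (hy i)).2.1, map_neg]
  have hYE : ∀ i, Y i * E = Y i := fun i => by
    rw [hE, hYi, ← RE_mul b.idem _ (cy i), (mem_Kn.1 (hy i)).2.2]
  have hR1 : ∀ i < n, ∀ j < n, ∀ k < n, X i * Y j * X k + X k * Y j * X i =
      (if i = j then X k else 0) + (if k = j then X i else 0) := by
    intro i hi j hj k hk
    have e1 := congrArg (RE ε) (hr1 i hi j hj k hk)
    rw [map_add, map_add, RE_mul b.idem _ (cmul (cx i) (cy j)), RE_mul b.idem _ (cx i),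
      RE_mul b.idem _ (cmul (cx k) (cy j)), RE_mul b.idem _ (cx k), apply_ite (RE ε),
      apply_ite (RE ε), map_zero] at e1
    simp only [hXi, hYi]
    exact e1
  have hR2 : ∀ i < n, ∀ j < n, ∀ k < n, Y i * X j * Y k + Y k * X j * Y i =
      (if i = j then Y k else 0) + (if k = j then Y i else 0) := by
    intro i hi j hj k hk
    have e1 := congrArg (RE ε) (hr2 i hi j hj k hk)
    rw [map_add, map_add, RE_mul b.idem _ (cmul (cy i) (cx j)), RE_mul b.idem _ (cy i),
      RE_mul b.idem _ (cmul (cy k) (cx j)), RE_mul b.idem _ (cy k), apply_ite (RE ε),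
      apply_ite (RE ε), map_zero] at e1
    simp only [hXi, hYi]
    exact e1
  have hirr' : ∀ W : Submodule K (LinearMap.range ε), (∀ w ∈ W, E w = w) →
      (∀ i < n, ∀ j < n, ∀ w ∈ W, X i (Y j w) ∈ W) → W = ⊥ ∨ ∀ v, E v = v → v ∈ W := by
    intro W hW1 hW
    have h3 := hirr (W.map (LinearMap.range ε).subtype) (by
      rintro _ ⟨w, hw, rfl⟩
      refine ⟨?_, eps_of_range b.idem w⟩
      have e1 := congrArg Subtype.val (hW1 w hw)
      rw [hE, RE_apply b.idem cD] at e1
      exact e1) (by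
      intro z hz z' hz' w hw
      refine span_prod (W := W.map (LinearMap.range ε).subtype) (n := n) (x := x) (y := y) ?_
        (hspan z hz) (hspan' z' hz') hw
      rintro i hi j hj _ ⟨w, hw, rfl⟩
      refine ⟨_, hW i hi j hj w hw, ?_⟩
      change ((X i (Y j w) : LinearMap.range ε) : V) = x i (y j w)
      rw [hXi, hYi, RE_apply b.idem (cx i), RE_apply b.idem (cy j)])
    rcases h3 with h3 | h3
    · left
      rw [Submodule.eq_bot_iff]
      intro w hw
      have e1 : (w : V) ∈ W.map (LinearMap.range ε).subtype := ⟨w, hw, rfl⟩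
      rw [h3] at e1
      exact Subtype.ext ((Submodule.mem_bot K).1 e1)
    · right
      intro v hv
      have e1 := congrArg Subtype.val hv
      rw [hE, RE_apply b.idem cD] at e1
      obtain ⟨w, hw, hwv⟩ := h3 v e1 (eps_of_range b.idem v)
      have e2 : w = v := Subtype.ext hwv
      rwa [← e2]
  have hirrn' : ∀ W : Submodule K (LinearMap.range ε), (∀ w ∈ W, E w = -w) →
      (∀ i < n, ∀ j < n, ∀ w ∈ W, Y i (X j w) ∈ W) → W = ⊥ ∨ ∀ v, E v = -v → v ∈ W := by
    intro W hW1 hW
    have h3 := hirrn (W.map (LinearMap.range ε).subtype) (by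
      rintro _ ⟨w, hw, rfl⟩
      refine ⟨?_, eps_of_range b.idem w⟩
      have e1 := congrArg Subtype.val (hW1 w hw)
      rw [hE, RE_apply b.idem cD] at e1
      change -(D w) = w
      rw [e1]
      exact neg_neg _) (by
      intro z hz z' hz' w hw
      refine span_prod (W := W.map (LinearMap.range ε).subtype) (n := n) (x := y) (y := x) ?_
        (hspan' z hz) (hspan z' (by rwa [neg_neg_D] at hz')) hw
      rintro i hi j hj _ ⟨w, hw, rfl⟩
      refine ⟨_, hW i hi j hj w hw, ?_⟩
      change ((Y i (X j w) : LinearMap.range ε) : V) = y i (x j w)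
      rw [hXi, hYi, RE_apply b.idem (cy i), RE_apply b.idem (cx j)])
    rcases h3 with h3 | h3
    · left
      rw [Submodule.eq_bot_iff]
      intro w hw
      have e1 : (w : V) ∈ W.map (LinearMap.range ε).subtype := ⟨w, hw, rfl⟩
      rw [h3] at e1
      exact Subtype.ext ((Submodule.mem_bot K).1 e1)
    · right
      intro v hv
      have e1 := congrArg Subtype.val hv
      rw [hE, RE_apply b.idem cD] at e1
      obtain ⟨w, hw, hwv⟩ := h3 v (by
        change -(D v) = v
        rw [e1]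
        exact neg_neg _) (eps_of_range b.idem v)
      have e2 : w = v := Subtype.ext hwv
      rwa [← e2]
  -- nonzero vectors
  obtain ⟨w1, hw1, hεw1⟩ := exists_eps_c h b F
  have hdne : d ≠ 0 := by
    rintro rfl
    apply F.ne
    rw [← F.pc, ← F.cd, mul_zero, zero_mul]
  obtain ⟨w2', hw2'⟩ : ∃ w, (ε * d) w ≠ 0 := by
    by_contra hcon
    push Not at hcon
    exact hdne (b.zero_of h F.dm.1 (LinearMap.ext hcon))
  have hmemE : ∀ {v : V}, ε v = v → v ∈ LinearMap.range ε := fun hv => ⟨_, hv⟩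
  obtain ⟨v1, hv1, hEv1⟩ : ∃ v1 : LinearMap.range ε, v1 ≠ 0 ∧ E v1 = v1 := by
    refine ⟨⟨c w1, hmemE hεw1⟩, fun h0 => hw1 (congrArg Subtype.val h0), Subtype.ext ?_⟩
    rw [hE, RE_apply b.idem cD]
    exact LinearMap.congr_fun F.cm.2.1 w1
  obtain ⟨v2, hv2, hEv2⟩ : ∃ v2 : LinearMap.range ε, v2 ≠ 0 ∧ E v2 = -v2 := by
    refine ⟨⟨ε (d w2'), ⟨_, rfl⟩⟩, fun h0 => hw2' (congrArg Subtype.val h0), Subtype.ext ?_⟩
    rw [hE, RE_apply b.idem cD]
    change D (ε (d w2')) = -ε (d w2')
    rw [← Module.End.mul_apply D ε, ← cD, Module.End.mul_apply]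
    have e1 : D (d w2') = -(d w2') := LinearMap.congr_fun (mem_Kn.1 F.dm).2.1 w2'
    rw [e1, map_neg]
  have hX0 : X 0 ≠ 0 := by
    intro h0
    have e2 : ε * x 0 = 0 := by
      apply rk_eq_zero
      rw [← RE_rk b.idem (cx 0), ← hXi, h0, rk_zero]
    exact hx00 (b.zero_of h (hx 0).1 e2)
  -- the ranks
  have hpos' : ∀ {D' : End K V}, ε * D' = D' * ε → D' * D' = 1 → finrank K (Pos D' ε) =
      rk ((2 : K)⁻¹ • (1 + RE ε D')) := by
    intro D' hc' hD'
    have e1 : (2 : K)⁻¹ • (1 + RE ε D') = RE ε ((2 : K)⁻¹ • (1 + D')) := by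
      rw [map_smul, map_add, RE_one b.idem]
    have c1 : ε * ((2 : K)⁻¹ • (1 + D')) = ((2 : K)⁻¹ • (1 + D')) * ε := by
      rw [mul_smul_comm, smul_mul_assoc, mul_add, add_mul, mul_one, one_mul, hc']
    rw [e1, RE_rk b.idem c1]
    unfold rk
    suffices e5 : Pos D' ε = LinearMap.range (ε * ((2 : K)⁻¹ • (1 + D'))) by rw [e5]
    ext v
    constructor
    · rintro ⟨hv, hεv⟩
      refine ⟨v, ?_⟩
      change ε ((2 : K)⁻¹ • (v + D' v)) = v
      rw [hv, ← two_smul K, smul_smul, inv_mul_cancel₀ two_ne_zero, one_smul, hεv]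
    · rintro ⟨w, rfl⟩
      refine ⟨?_, LinearMap.congr_fun b.idem _⟩
      have e2 : D' * (ε * ((2 : K)⁻¹ • (1 + D'))) = ε * ((2 : K)⁻¹ • (1 + D')) := by
        rw [← mul_assoc, ← hc', mul_assoc, mul_smul_comm, mul_add, mul_one, hD', add_comm]
      exact LinearMap.congr_fun e2 w

  have hrr : rk ((2 : K)⁻¹ • (1 + E)) = rk ((2 : K)⁻¹ • (1 - E)) := by
    have e1 := hpos' cD hD2
    have e2 := hpos' (D' := -D) (by rw [mul_neg, neg_mul, cD]) hDn2
    rw [map_neg, ← hE] at e2
    rw [← hE] at e1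
    rw [← e1, hpq, e2]
    congr 2
    first
      | exact (sub_eq_add_neg _ _).symm
      | rfl
      | abel
  obtain ⟨a, han, hn2, hPne, FF⟩ := frame2 hpos hE2 hEX hXE hEY hYE hR1 hR2 hirr'
    hirrn' hv1 hEv1 hv2 hEv2 hX0 hrr
  rw [hX, hY, hE] at FF
  rw [hE] at hPne
  exact ⟨a, han, hn2, hPne, FF⟩

end exc

theorem RE_EE {ε : End K V} (hε : ε * ε = ε) {x y : ℕ → End K V} {P : End K V}
    (cx : ∀ i, ε * x i = x i * ε) (cy : ∀ i, ε * y i = y i * ε) (cP : ε * P = P * ε) (j : ℕ) :
    RE ε (EE' x y P j) = EE' (fun i => RE ε (x i)) (fun i => RE ε (y i)) (RE ε P) j ∧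
      ε * EE' x y P j = EE' x y P j * ε := by
  induction j with
  | zero => exact ⟨rfl, cP⟩
  | succ j ih =>
    obtain ⟨ih1, ih2⟩ := ih
    constructor
    · change RE ε (EE' x y P j * (x j * y j)) = EE' (fun i => RE ε (x i))
        (fun i => RE ε (y i)) (RE ε P) j * (RE ε (x j) * RE ε (y j))
      rw [RE_mul hε _ ih2, RE_mul hε _ (cx j), ih1]
    · change ε * (EE' x y P j * (x j * y j)) = EE' x y P j * (x j * y j) * ε
      rw [← mul_assoc, ih2, mul_assoc, ← mul_assoc ε, cx, mul_assoc (x j), cy, mul_assoc,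
        mul_assoc]

theorem zero_of_RE {ε z : End K V} (hε : ε * ε = ε) (hz : ε * z = z * ε) (h0 : RE ε z = 0) :
    ε * z = 0 := by
  apply rk_eq_zero
  rw [← RE_rk hε hz, h0, rk_zero]

theorem self : S_SELF := by
  intro K _ _ _ V _ _ _ G st h ε b htr D c d p q F hD hD2 hirr hirrn hirr' hirrn' hcon hno hpq
  exfalso
  have b' := b.symm h
  obtain ⟨n, x, y, hpos, hx, hy, hr1, hr2, hspan, hspan', hx00⟩ := exists_fam h F hD hD2 hcon
  have cD : ε * D = D * ε := b.comm D hD
  -- the multiplicities on the second summand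
  have htD : trace K V (ε * D) = 0 := by
    have e1 := finrank_pos b hD hD2
    have e2 := finrank_pos b (G.neg_mem hD) (show -D * -D = 1 by rw [neg_mul_neg, hD2])
    rw [hpq, e2, mul_neg, map_neg] at e1
    have e3 : (2 : K) * trace K V (ε * D) = 0 := by linear_combination -e1
    exact (mul_eq_zero.1 e3).resolve_left two_ne_zero
  have htD' : trace K V ((1 - ε) * D) = 0 := by
    have e1 := htr (ε * D)
    rw [h.st_mul, h.skew D hD, b.st, neg_mul, map_neg, htD, neg_eq_zero,
      ← b.comm' D hD] at e1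
    exact e1
  have hpq' : finrank K (Pos D (1 - ε)) = finrank K (Pos (-D) (1 - ε)) := by
    have e1 := finrank_pos b' hD hD2
    have e2 := finrank_pos b' (G.neg_mem hD) (show -D * -D = 1 by rw [neg_mul_neg, hD2])
    rw [htD', add_zero] at e1
    rw [mul_neg, map_neg, htD', neg_zero, add_zero, ← e1] at e2
    have e3 := mul_left_cancel₀ two_ne_zero e2
    exact_mod_cast e3.symm
  obtain ⟨a, han, hn2, hPne, F1⟩ := blk_fr h b F hD hD2 hirr hirrn hpos hx hy hr1 hr2 hspan hspan'
    hx00 hpq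
  obtain ⟨a', han', hn2', hPne', F2⟩ := blk_fr h b' F hD hD2 hirr' hirrn' hpos hx hy hr1 hr2
    hspan hspan' hx00 hpq'
  obtain rfl : a = a' := by omega
  obtain ⟨P, hP⟩ : ∃ P : End K V, P = (2 : K)⁻¹ • (1 + D) := ⟨_, rfl⟩
  have hP1 : RE ε P = (2 : K)⁻¹ • (1 + RE ε D) := by
    rw [hP, map_smul, map_add, RE_one b.idem]
  have hP1' : RE (1 - ε) P = (2 : K)⁻¹ • (1 + RE (1 - ε) D) := by
    rw [hP, map_smul, map_add, RE_one b'.idem]
  rw [← hP1] at F1 hPne
  rw [← hP1'] at F2 hPne'
  have cx : ∀ i, ε * x i = x i * ε := fun i => b.comm _ (hx i).1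
  have cy : ∀ i, ε * y i = y i * ε := fun i => b.comm _ (hy i).1
  have cx' : ∀ i, (1 - ε) * x i = x i * (1 - ε) := fun i => b'.comm _ (hx i).1
  have cy' : ∀ i, (1 - ε) * y i = y i * (1 - ε) := fun i => b'.comm _ (hy i).1
  have cP : ε * P = P * ε := by
    rw [hP, mul_smul_comm, smul_mul_assoc, mul_add, add_mul, cD, mul_one, one_mul]
  have cP' : (1 - ε) * P = P * (1 - ε) := by
    rw [sub_mul, mul_sub, one_mul, mul_one, cP]
  have c1 : ∀ {z : End K V}, ε * z = z * ε → (1 - ε) * z = z * (1 - ε) := by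
    intro z hz
    rw [sub_mul, mul_sub, one_mul, mul_one, hz]
  have hglue : ∀ z : End K V, ε * z = z * ε → RE ε z = 0 → RE (1 - ε) z = 0 → z = 0 := by
    intro z hz h1 h2
    have e1 := zero_of_RE b.idem hz h1
    have e2 := zero_of_RE b'.idem (c1 hz) h2
    calc z = ε * z + (1 - ε) * z := by rw [← add_mul, add_sub_cancel, one_mul]
    _ = 0 := by rw [e1, e2, add_zero]
  have csum : ∀ {u v : ℕ → End K V}, (∀ i, ε * u i = u i * ε) → (∀ i, ε * v i = v i * ε) →
      ε * ∑ i ∈ Finset.range n, u i * v i = (∑ i ∈ Finset.range n, u i * v i) * ε := by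
    intro u v hu hv
    rw [Finset.mul_sum, Finset.sum_mul]
    refine Finset.sum_congr rfl fun i _ => ?_
    rw [← mul_assoc, hu, mul_assoc, hv, mul_assoc]
  have REsum : ∀ {ε' : End K V}, ε' * ε' = ε' → ∀ {u v : ℕ → End K V},
      (∀ i, ε' * u i = u i * ε') → RE ε' (∑ i ∈ Finset.range n, u i * v i) =
        ∑ i ∈ Finset.range n, RE ε' (u i) * RE ε' (v i) := by
    intro ε' hε' u v hu
    rw [map_sum]
    exact Finset.sum_congr rfl fun i _ => RE_mul hε' _ (hu i)
  have FF : Fr n x y P (a : K) (a : K) := by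
    have e2 : (2 : K)⁻¹ + (2 : K)⁻¹ = 1 := by norm_num
    refine ⟨hr1, hr2, fun i _ => ?_, fun i _ => ?_, fun i _ => ?_, fun i _ => ?_, ?_, ?_, ?_⟩
    · rw [hP, smul_mul_assoc, add_mul, one_mul, (hx i).2.1, ← two_smul K, smul_smul,
        inv_mul_cancel₀ two_ne_zero, one_smul]
    · rw [hP, mul_smul_comm, mul_add, mul_one, (mem_Kn.1 (hy i)).2.2, ← two_smul K, smul_smul,
        inv_mul_cancel₀ two_ne_zero, one_smul]
    · rw [hP, mul_smul_comm, mul_add, mul_one, (hx i).2.2, add_neg_cancel, smul_zero]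
    · rw [hP, smul_mul_assoc, add_mul, one_mul, (mem_Kn.1 (hy i)).2.1, add_neg_cancel, smul_zero]
    · have e1 : (1 + D) * (1 + D) = (2 : K) • (1 + D) := by
        rw [mul_add, add_mul, add_mul, one_mul, one_mul, mul_one, hD2, two_smul]
        abel
      rw [hP, smul_mul_smul_comm, e1, smul_smul]
      congr 1
      rw [mul_assoc, inv_mul_cancel₀ two_ne_zero, mul_one]
    · rw [← sub_eq_zero]
      refine hglue _ ?_ ?_ ?_
      · rw [mul_sub, sub_mul, csum cx cy, mul_smul_comm, smul_mul_assoc, cP]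
      · rw [map_sub, map_smul, REsum b.idem cx, F1.cas, sub_self]
      · rw [map_sub, map_smul, REsum b'.idem cx', F2.cas, sub_self]
    · rw [← sub_eq_zero]
      refine hglue _ ?_ ?_ ?_
      · rw [mul_sub, sub_mul, csum cy cx, mul_smul_comm, smul_mul_assoc, mul_sub, sub_mul, cP,
          mul_one, one_mul]
      · rw [map_sub, map_smul, REsum b.idem cy, F1.cas', map_sub, RE_one b.idem, sub_self]
      · rw [map_sub, map_smul, REsum b'.idem cy', F2.cas', map_sub, RE_one b'.idem, sub_self]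
  have hPne0 : P ≠ 0 := by
    rintro h0
    apply hPne
    rw [h0, map_zero]
  have cast_inj : ∀ {i : ℕ}, (a : K) = i → a = i := fun hi => by exact_mod_cast hi
  obtain ⟨a1, -, ha1, -, hEz⟩ := FF.exists_nat hPne0
  obtain rfl := cast_inj ha1
  obtain ⟨a2, -, ha2, hne1, -⟩ := F1.exists_nat hPne
  obtain rfl := cast_inj ha2
  obtain ⟨a3, -, ha3, hne2, -⟩ := F2.exists_nat hPne'
  obtain rfl := cast_inj ha3
  obtain ⟨r1, r2⟩ := RE_EE b.idem cx cy cP a
  obtain ⟨r1', r2'⟩ := RE_EE b'.idem cx' cy' cP' a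
  rw [← r1] at hne1
  rw [← r1'] at hne2
  have hEid := FF.E_idem han
  have hex : ∀ {ε' : End K V}, ε' * ε' = ε' → ε' * EE' x y P a = EE' x y P a * ε' →
      rk (RE ε' (EE' x y P a)) ≠ 0 →
      ∃ w, w ≠ 0 ∧ ε' w = w ∧ EE' x y P a w = w := by
    intro ε' hε' hc hne
    obtain ⟨v, hv⟩ : ∃ v, (ε' * EE' x y P a) v ≠ 0 := by
      by_contra hcc
      push Not at hcc
      apply hne
      rw [RE_rk hε' hc, show ε' * EE' x y P a = 0 from LinearMap.ext hcc, rk_zero]
    refine ⟨(ε' * EE' x y P a) v, hv, ?_, ?_⟩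
    · have e1 : ε' * (ε' * EE' x y P a) = ε' * EE' x y P a := by rw [← mul_assoc, hε']
      exact LinearMap.congr_fun e1 v
    · have e1 : EE' x y P a * (ε' * EE' x y P a) = ε' * EE' x y P a := by
        rw [← mul_assoc, ← hc, mul_assoc, hEid]
      exact LinearMap.congr_fun e1 v
  obtain ⟨w, hw0, hεw, hEw⟩ := hex b.idem r2 hne1
  obtain ⟨w', hw0', hεw', hEw'⟩ := hex b'.idem r2' hne2
  have hεw2 : ε w' = 0 := by
    have e1 : w' - ε w' = w' := hεw'
    exact sub_eq_self.1 e1
  obtain ⟨M, hwM, hMP, hME, hMs⟩ := exists_M FF han hEz (w := w + w') (by rw [map_add, hEw, hEw'])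
  have hPD : ∀ v, P v = v → D v = v := by
    intro v hv
    have e1 : P v + P v = v + D v := by
      have hP2 : P + P = 1 + D := by
        rw [← two_smul K, hP, smul_smul, mul_inv_cancel₀ two_ne_zero, one_smul]
      exact LinearMap.congr_fun hP2 v
    rw [hv] at e1
    exact (add_left_cancel e1).symm
  have hPw : ∀ {u : V}, EE' x y P a u = u → D u = u := by
    intro u hu
    have hPE : P * EE' x y P a = EE' x y P a := by
      have key : ∀ j ≤ n, P * EE' x y P j = EE' x y P j := by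
        intro j hj
        induction j with
        | zero => exact FF.PP
        | succ j ih =>
          change P * (EE' x y P j * (x j * y j)) = _
          rw [← mul_assoc, ih (by omega)]
          rfl
      exact key a han
    apply hPD
    conv_lhs => rw [← hu]
    conv_rhs => rw [← hu]
    exact LinearMap.congr_fun hPE u
  have hMst : ∀ z ∈ Kp G D, ∀ z' ∈ Kp G (-D), ∀ v ∈ M, z (z' v) ∈ M := by
    intro z hz z' hz' v hv
    exact span_prod (W := M) (n := n) (x := x) (y := y)
      (fun i hi j hj u hu => hMs u hu i hi j hj) (hspan z hz) (hspan' z' hz') hv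
  have hMD : ∀ v ∈ M, D v = v := fun v hv => hPD v (hMP v hv)
  -- the intersections with the summands
  have hint : ∀ {ε' : End K V}, (∀ z ∈ G, ε' * z = z * ε') → IrrE G ε' D → ∀ u : V, D u = u →
      ε' u = u → EE' x y P a u = u → (∀ s : K, u ≠ s • (w + w')) →
      ∀ v ∈ M, ε' v = v → v = 0 := by
    intro ε' hc hir u hDu hεu hEu hus v hv hεv
    let W : Submodule K V := M ⊓ LinearMap.ker (ε' - 1)
    have hWmem : ∀ t, t ∈ W ↔ t ∈ M ∧ ε' t = t := by
      intro t
      rw [Submodule.mem_inf, LinearMap.mem_ker, LinearMap.sub_apply, Module.End.one_apply,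
        sub_eq_zero]
    rcases hir W (fun t ht => ⟨hMD t ((hWmem t).1 ht).1, ((hWmem t).1 ht).2⟩) (by
      intro z hz z' hz' t ht
      rw [hWmem] at ht ⊢
      refine ⟨hMst z hz z' hz' t ht.1, ?_⟩
      have e1 : ε' (z (z' t)) = z (ε' (z' t)) := LinearMap.congr_fun (hc z hz.1) (z' t)
      have e2 : ε' (z' t) = z' (ε' t) := LinearMap.congr_fun (hc z' hz'.1) t
      rw [e1, e2, ht.2]) with h1 | h1
    · have e1 : v ∈ W := (hWmem v).2 ⟨hv, hεv⟩
      rw [h1] at e1
      exact (Submodule.mem_bot K).1 e1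
    · exfalso
      have e1 := ((hWmem u).1 (h1 u hDu hεu)).1
      have e2 := hME u e1
      rw [hEu] at e2
      obtain ⟨s, hs⟩ := Submodule.mem_span_singleton.1 e2
      exact hus s hs.symm
  have k1 : ∀ v ∈ M, ε v = v → v = 0 := by
    refine hint b.comm hirr w (hPw hEw) hεw hEw ?_
    intro s hs
    have e1 : (1 - ε) w = (1 - ε) (s • (w + w')) := by rw [← hs]
    rw [map_smul, map_add, hεw'] at e1
    have e2 : (1 - ε) w = 0 := by
      rw [LinearMap.sub_apply, Module.End.one_apply, hεw, sub_self]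
    rw [e2, zero_add] at e1
    have e3 : s = 0 := (smul_eq_zero.1 e1.symm).resolve_right hw0'
    rw [e3, zero_smul] at hs
    exact hw0 hs
  have k2 : ∀ v ∈ M, ε v = 0 → v = 0 := by
    intro v hv hεv
    refine hint b'.comm hirr' w' (hPw hEw') hεw' hEw' ?_ v hv ?_
    · intro s hs
      have e1 : ε w' = ε (s • (w + w')) := by rw [← hs]
      rw [map_smul, map_add, hεw, hεw2, add_zero] at e1
      have e3 : s = 0 := (smul_eq_zero.1 e1.symm).resolve_right hw0
      rw [e3, zero_smul] at hs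
      exact hw0' hs
    · rw [LinearMap.sub_apply, Module.End.one_apply, hεv, sub_zero]
  have hMbot := hno M hMD hMst k1 k2
  rw [hMbot] at hwM
  have e1 : w + w' = 0 := (Submodule.mem_bot K).1 hwM
  have e2 : ε (w + w') = 0 := by rw [e1, map_zero]
  rw [map_add, hεw, hεw2, add_zero] at e2
  exact hw0 e2

end Pool.Agent.Y185.G
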