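import Pool.Agent.Y223.G.Stm3

/-!
# Descent of forms (S_DSC of project G)
-/

set_option autoImplicit false

namespace Pool.Agent.Y185.G

open Pool.Agent.Y223.G

section aux

variable {k O L Y K : Type} [CommRing k] [IsDomain k] [CommRing O] [IsDomain O]
  [IsDedekindDomain O] [Field L] [Field Y] [Field K] [Algebra k O] [Algebra O K] [Algebra k K]
  [IsScalarTower k O K] [Algebra L K] [Algebra k Y]

theorem iter_com {τ : K ≃ₐ[k] K} {t : O ≃ₐ[k] O}
    (com : ∀ o, τ (algebraMap O K o) = algebraMap O K (t o)) (i : ℕ) (o : O) :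
    τ^[i] (algebraMap O K o) = algebraMap O K (t^[i] o) := by
  induction i generalizing o with
  | zero => rfl
  | succ i ih => rw [Function.iterate_succ_apply, Function.iterate_succ_apply, com, ih]

theorem iter_fix {τ : K ≃ₐ[k] K} {x : K} (h : τ x = x) (i : ℕ) : τ^[i] x = x := by
  induction i with
  | zero => rfl
  | succ i ih => rw [Function.iterate_succ_apply, h, ih]

theorem t_ord {p : ℕ} {τ : K ≃ₐ[k] K} {t : O ≃ₐ[k] O} (hG : GSet k O K p τ t) (o : O) :
    t^[p] o = o := by
  apply hG.inj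
  rw [← iter_com hG.com, hG.ord]

/-- The trace of an element of `O` lies in `k`. -/
theorem tr_fix {p : ℕ} {τ : K ≃ₐ[k] K} {t : O ≃ₐ[k] O} (hG : GSet k O K p τ t) (o : O) :
    ∃ c : k, algebraMap k O c = ∑ i ∈ Finset.range p, t^[i] o := by
  apply hG.fix
  rw [map_sum]
  have h1 : ∑ i ∈ Finset.range p, t (t^[i] o) = ∑ i ∈ Finset.range p, t^[i + 1] o := by
    refine Finset.sum_congr rfl fun i _ => ?_
    rw [Function.iterate_succ_apply']
  have h2 := Finset.sum_range_succ' (fun i => t^[i] o) p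
  have h3 := Finset.sum_range_succ (fun i => t^[i] o) p
  rw [h1]
  rw [h2] at h3
  simp only [Function.iterate_zero, id_eq, t_ord hG] at h3
  exact add_right_cancel h3

/-- The norm of an element of `O` lies in `k`. -/
theorem nm_fix {p : ℕ} {τ : K ≃ₐ[k] K} {t : O ≃ₐ[k] O} (hG : GSet k O K p τ t) (o : O) :
    ∃ c : k, algebraMap k O c = ∏ i ∈ Finset.range p, t^[i] o := by
  apply hG.fix
  rw [map_prod]
  obtain ⟨q, hq⟩ : ∃ q, p = q + 1 := ⟨p - 1, (Nat.succ_pred_eq_of_pos hG.pp.pos).symm⟩
  have h1 : ∏ i ∈ Finset.range p, t (t^[i] o) = ∏ i ∈ Finset.range p, t^[i + 1] o := by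
    refine Finset.prod_congr rfl fun i _ => ?_
    rw [Function.iterate_succ_apply']
  rw [h1]
  have h4 := t_ord hG o
  rw [hq] at h4 ⊢
  rw [Finset.prod_range_succ, Finset.prod_range_succ' (fun i => t^[i] o) q, h4]
  rfl

theorem span_clear (hlf : ∀ x : L, ∃ a b : O, b ≠ 0 ∧
    algebraMap L K x * algebraMap O K b = algebraMap O K a) (S : Set K) (w : K)
    (hw : w ∈ Submodule.span L S) : ∃ c : O, c ≠ 0 ∧ c • w ∈ Submodule.span O S := by
  induction hw using Submodule.span_induction with
  | mem x hx => exact ⟨1, one_ne_zero, by rw [one_smul]; exact Submodule.subset_span hx⟩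
  | zero => exact ⟨1, one_ne_zero, by rw [one_smul]; exact Submodule.zero_mem _⟩
  | add x y _ _ hx hy =>
    obtain ⟨c, hc, hx⟩ := hx
    obtain ⟨d, hd, hy⟩ := hy
    refine ⟨c * d, mul_ne_zero hc hd, ?_⟩
    rw [smul_add, mul_comm c d, mul_smul, mul_comm d c, mul_smul]
    exact Submodule.add_mem _ (Submodule.smul_mem _ _ hx) (Submodule.smul_mem _ _ hy)
  | smul a x _ hx =>
    obtain ⟨c, hc, hx⟩ := hx
    obtain ⟨a', b, hb, hab⟩ := hlf a
    refine ⟨c * b, mul_ne_zero hc hb, ?_⟩
    have h1 : (c * b) • a • x = a' • c • x := by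
      simp only [Algebra.smul_def, map_mul]
      rw [← hab]
      ring
    rw [h1]
    exact Submodule.smul_mem _ _ hx

end aux

theorem t_DSC : Pool.Agent.Y223.G.S_DSC := by
  intro k O L Y K _ _ _ _ _ _ _ _ _ _ _ _ _ _ ι p τ t m z hG N y hy
  have hS : GSet k O K p τ t := hG.toGSet
  obtain ⟨c, hc, hcy⟩ := span_clear (O := O) hG.lf _ _ hy
  -- the norm of the denominator
  obtain ⟨r, hr⟩ := nm_fix hS c
  have tinj : Function.Injective (t : O → O) := t.injective
  have hr0 : r ≠ 0 := by
    rintro rfl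
    rw [map_zero] at hr
    obtain ⟨i, _, hi⟩ := Finset.prod_eq_zero_iff.1 hr.symm
    apply hc
    have h1 : Function.Injective (t^[i]) := tinj.iterate i
    apply h1
    rw [hi, iterate_map_zero]
  have hry : algebraMap k O r • ι y ∈ Submodule.span O (ι '' (N : Set Y)) := by
    obtain ⟨q, hq⟩ : ∃ q, p = q + 1 := ⟨p - 1, (Nat.succ_pred_eq_of_pos hS.pp.pos).symm⟩
    rw [hr, hq, Finset.prod_range_succ']
    simp only [Function.iterate_zero, id_eq]
    rw [mul_smul]
    exact Submodule.smul_mem _ _ hcy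
  -- the trace
  have key : ∀ x ∈ Submodule.span O (ι '' (N : Set Y)), ∀ a : O,
      ∃ n ∈ N, ∑ i ∈ Finset.range p, τ^[i] (a • x) = ι n := by
    intro x hx
    induction hx using Submodule.span_induction with
    | mem x hx =>
      intro a
      obtain ⟨n, hn, rfl⟩ := hx
      obtain ⟨b, hb⟩ := tr_fix hS a
      refine ⟨b • n, N.smul_mem b hn, ?_⟩
      have h1 : ∀ i ∈ Finset.range p, τ^[i] (a • ι n) = algebraMap O K (t^[i] a) * ι n := by
        intro i _
        rw [Algebra.smul_def, iterate_map_mul, iter_com hS.com,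
          iter_fix ((hG.fixK (ι n)).2 ⟨n, rfl⟩)]
      rw [Finset.sum_congr rfl h1, ← Finset.sum_mul, ← map_sum, ← hb, map_smul, Algebra.smul_def,
        ← IsScalarTower.algebraMap_apply k O K]
    | zero =>
      intro a
      refine ⟨0, N.zero_mem, ?_⟩
      rw [smul_zero, map_zero]
      exact Finset.sum_eq_zero fun i _ => iterate_map_zero τ i
    | add x y _ _ hx hy =>
      intro a
      obtain ⟨n, hn, hx⟩ := hx a
      obtain ⟨n', hn', hy⟩ := hy a
      refine ⟨n + n', N.add_mem hn hn', ?_⟩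
      rw [map_add, ← hx, ← hy, ← Finset.sum_add_distrib]
      refine Finset.sum_congr rfl fun i _ => ?_
      rw [smul_add, iterate_map_add]
    | smul b x _ hx =>
      intro a
      obtain ⟨n, hn, hx⟩ := hx (a * b)
      exact ⟨n, hn, by rw [← mul_smul]; exact hx⟩
  obtain ⟨n, hn, h⟩ := key _ hry 1
  refine ⟨(p : k) * r, mul_ne_zero ?_ hr0, ?_⟩
  · intro h0
    apply hS.pk
    have := congrArg (algebraMap k K) h0
    rwa [map_natCast, map_zero] at this
  · have h2 : ((p : k) * r) • y = n := by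
      apply ι.toRingHom.injective
      show ι (((p : k) * r) • y) = ι n
      rw [← h]
      have h3 : ∀ i ∈ Finset.range p, τ^[i] ((1 : O) • algebraMap k O r • ι y) =
          algebraMap k K r * ι y := by
        intro i _
        rw [one_smul, Algebra.smul_def, ← IsScalarTower.algebraMap_apply k O K, iterate_map_mul]
        congr 1
        · exact iter_fix (τ.commutes r) i
        · exact iter_fix ((hG.fixK (ι y)).2 ⟨y, rfl⟩) i
      rw [Finset.sum_congr rfl h3, Finset.sum_const, Finset.card_range, map_smul,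
        Algebra.smul_def, map_mul, map_natCast, nsmul_eq_mul, mul_assoc]
    rw [h2]
    exact hn

end Pool.Agent.Y185.G
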